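import Pool.Agent.H37.CNW.Stmts
import Pool.Agent.H2.CND.CNG

/-!
# Row XSY of the board `cnw`: the Sylow `p`-subgroups of the symmetric group of degree `p ^ (m + 2)`
-/

set_option autoImplicit false

namespace Pool.CND

namespace XSY

variable {p : ℕ} {Ω : Type}

theorem smul_arrow (Q : Subgroup (Equiv.Perm Ω)) (h : Q) (f : Ω → Multiplicative (ZMod p)) (ω : Ω) :
    (mulAutArrow (G := Q) (A := Ω) (M := Multiplicative (ZMod p)) h) f ω = f (h⁻¹ • ω) := rfl

/-- the permutation of `ZMod p × Ω` given by `g` -/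
def perm (Q : Subgroup (Equiv.Perm Ω)) (g : PW p Q Ω) : Equiv.Perm (ZMod p × Ω) where
  toFun x := (x.1 + Multiplicative.toAdd (g.left (g.right • x.2)), g.right • x.2)
  invFun x := (x.1 - Multiplicative.toAdd (g.left x.2), g.right⁻¹ • x.2)
  left_inv := by
    rintro ⟨a, ω⟩
    simp
  right_inv := by
    rintro ⟨a, ω⟩
    simp

/-- the action on `ZMod p × Ω` -/
def act (p : ℕ) (Q : Subgroup (Equiv.Perm Ω)) : PW p Q Ω →* Equiv.Perm (ZMod p × Ω) :=
  MonoidHom.mk' (perm Q) (by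
    intro g g'
    ext x
    · show x.1 + Multiplicative.toAdd ((g * g').left ((g * g').right • x.2)) =
        (x.1 + Multiplicative.toAdd (g'.left (g'.right • x.2))) +
          Multiplicative.toAdd (g.left (g.right • g'.right • x.2))
      rw [SemidirectProduct.mul_left, SemidirectProduct.mul_right, Pi.mul_apply, smul_arrow,
        mul_smul, inv_smul_smul, toAdd_mul]
      ring
    · show (g * g').right • x.2 = g.right • g'.right • x.2
      rw [SemidirectProduct.mul_right, mul_smul])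

theorem act_inj (Q : Subgroup (Equiv.Perm Ω)) : Function.Injective (act p Q) := by
  rw [injective_iff_map_eq_one]
  intro g hg
  have h1 : ∀ x : ZMod p × Ω,
      (x.1 + Multiplicative.toAdd (g.left (g.right • x.2)), g.right • x.2) = x := fun x =>
    congrArg (fun σ : Equiv.Perm (ZMod p × Ω) => σ x) hg
  have h2 : g.right = 1 := by
    apply Subtype.ext
    apply Equiv.ext
    intro ω
    exact congrArg Prod.snd (h1 (0, ω))
  have h3 : g.left = 1 := by
    funext ω
    have h4 := congrArg Prod.fst (h1 (0, ω))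
    rw [h2, one_smul] at h4
    have h5 : Multiplicative.toAdd (g.left ω) = 0 := by simpa using h4
    exact h5
  exact SemidirectProduct.ext h3 h2

theorem card_pw [Finite Ω] (hp : p.Prime) (Q : Subgroup (Equiv.Perm Ω)) :
    Nat.card (PW p Q Ω) = p ^ Nat.card Ω * Nat.card Q := by
  have : NeZero p := ⟨hp.ne_zero⟩
  rw [Nat.card_congr (SemidirectProduct.equivProd (φ := mulAutArrow (G := Q) (A := Ω)
    (M := Multiplicative (ZMod p)))), Nat.card_prod, Nat.card_fun]
  congr 2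
  exact Nat.card_zmod p

/-- translations -/
def tr (N : ℕ) : Multiplicative (ZMod N) →* Equiv.Perm (ZMod N) :=
  MonoidHom.mk' (fun x => Equiv.addLeft (Multiplicative.toAdd x)) (by
    intro x y
    ext z
    simp)

theorem sylow_trans (hp : p.Prime) (m : ℕ) : ∃ Q : Sylow p (Equiv.Perm (ZMod (p ^ (m + 1)))),
    ∀ x : ZMod (p ^ (m + 1)), ∃ g ∈ Q, g 0 = x := by
  have : NeZero (p ^ (m + 1)) := ⟨pow_ne_zero _ hp.ne_zero⟩
  have hG : IsPGroup p (Multiplicative (ZMod (p ^ (m + 1)))) :=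
    IsPGroup.of_card (n := m + 1) (Nat.card_zmod _)
  have hR : IsPGroup p (tr (p ^ (m + 1))).range :=
    hG.of_surjective (tr (p ^ (m + 1))).rangeRestrict (MonoidHom.rangeRestrict_surjective _)
  obtain ⟨Q, hQ⟩ := hR.exists_le_sylow
  refine ⟨Q, fun x => ⟨tr (p ^ (m + 1)) (Multiplicative.ofAdd x), hQ ⟨_, rfl⟩, ?_⟩⟩
  show x + 0 = x
  exact add_zero x

end XSY

open XSY in
theorem xsy_thm (hXPP : S_XPP) : S_XSY := by
  intro p m k _ _ hF hK S
  have hp : p.Prime := hF.out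
  have i1 : NeZero (p ^ (m + 1)) := ⟨pow_ne_zero _ hp.ne_zero⟩
  have i2 : NeZero p := ⟨hp.ne_zero⟩
  obtain ⟨Q, hQ⟩ := sylow_trans hp m
  have hcardΩ : Nat.card (ZMod (p ^ (m + 1))) = p ^ (m + 1) := Nat.card_zmod _
  have i3 : MulAction.IsPretransitive (Q : Subgroup (Equiv.Perm (ZMod (p ^ (m + 1)))))
      (ZMod (p ^ (m + 1))) := by
    refine ⟨fun x y => ?_⟩
    obtain ⟨g, hg, hgx⟩ := hQ x
    obtain ⟨h, hh, hhy⟩ := hQ y
    refine ⟨⟨h, hh⟩ * ⟨g, hg⟩⁻¹, ?_⟩
    show (h * g⁻¹) x = y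
    have h1 : g⁻¹ x = 0 := by
      rw [← hgx]
      exact g.symm_apply_apply 0
    rw [Equiv.Perm.mul_apply, h1, hhy]
  have hlt : 1 < p ^ (m + 1) := Nat.one_lt_pow (Nat.succ_ne_zero m) hp.one_lt
  have i4 : Nontrivial (ZMod (p ^ (m + 1))) := by
    rw [← Finite.one_lt_card_iff_nontrivial, hcardΩ]
    exact hlt
  have i5 : Nontrivial (Q : Subgroup (Equiv.Perm (ZMod (p ^ (m + 1))))) := by
    obtain ⟨g, hg, hg1⟩ := hQ 1
    refine ⟨⟨g, hg⟩, 1, fun h => ?_⟩
    have h1 : g = 1 := congrArg Subtype.val h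
    rw [h1, Equiv.Perm.one_apply] at hg1
    exact zero_ne_one hg1
  have hcardQ := Sylow.card_eq_multiplicity Q
  have hmain := hXPP p k (Q : Subgroup (Equiv.Perm (ZMod (p ^ (m + 1))))) (ZMod (p ^ (m + 1))) hp hK
    ⟨_, hcardQ⟩
  rw [hcardΩ] at hmain
  -- the isomorphism
  have hcard2 : Nat.card (ZMod p × ZMod (p ^ (m + 1))) = p ^ (m + 2) := by
    rw [Nat.card_prod, hcardΩ, Nat.card_zmod]
    ring
  let e : ZMod p × ZMod (p ^ (m + 1)) ≃ Fin (p ^ (m + 2)) := Finite.equivFinOfCardEq hcard2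
  let φ : PW p (Q : Subgroup (Equiv.Perm (ZMod (p ^ (m + 1))))) (ZMod (p ^ (m + 1))) →*
      Equiv.Perm (Fin (p ^ (m + 2))) :=
    (Equiv.permCongrHom e).toMonoidHom.comp (act p (Q : Subgroup (Equiv.Perm (ZMod (p ^ (m + 1))))))
  have hφ : Function.Injective φ :=
    (Equiv.permCongrHom e).injective.comp (act_inj _)
  have hcardφ : Nat.card φ.range =
      p ^ (Nat.card (Equiv.Perm (Fin (p ^ (m + 2))))).factorization p := by
    rw [← Nat.card_congr (MonoidHom.ofInjective hφ).toEquiv, card_pw hp, hcardΩ, hcardQ, ← pow_add,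
      Nat.card_perm, Nat.card_perm, hcardΩ, Nat.card_eq_fintype_card, Fintype.card_fin]
    congr 1
    have h := Nat.factorization_factorial_mul (n := p ^ (m + 1)) hp
    have h2 : p * p ^ (m + 1) = p ^ (m + 2) := by ring
    rw [h2] at h
    rw [h]
    ring
  have hne : Nonempty (S ≃* PW p (Q : Subgroup (Equiv.Perm (ZMod (p ^ (m + 1)))))
      (ZMod (p ^ (m + 1)))) :=
    ⟨(Sylow.equiv S (Sylow.ofCard φ.range hcardφ)).trans (MonoidHom.ofInjective hφ).symm⟩
  rw [cng_thm k _ _ hne]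
  exact hmain

end Pool.CND
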